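import Pool.Agent.Helper93.PL.St

/-!
Module Alw of PL: the number of allowed `m` in an interval.
-/

set_option autoImplicit false

namespace Pool.Agent.Helper45.PL

open Finset
open Pool.Agent.Helper61.PV Pool.Agent.Helper93.PL

theorem ev_shift {d : ℕ} (F : Fin (d + 1) → ℤ) (W m : ℤ) : W ∣ ev F (m + W) - ev F m := by
  unfold ev
  rw [← Finset.sum_sub_distrib]
  refine Finset.dvd_sum fun i _ => ?_
  rw [← mul_sub]
  apply Dvd.dvd.mul_left
  have h := sub_dvd_pow_sub_pow (m + W) m (i : ℕ)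
  rwa [add_sub_cancel_left] at h

theorem cop_shift {d : ℕ} (F : Fin (d + 1) → ℤ) (W m : ℕ) :
    Nat.Coprime (ev F ((m + W : ℕ) : ℤ)).natAbs W ↔ Nat.Coprime (ev F (m : ℤ)).natAbs W := by
  have h1 := ev_shift F (W : ℤ) (m : ℤ)
  have h2 : ∀ a : ℤ, Nat.Coprime a.natAbs W ↔ IsCoprime a (W : ℤ) := by
    intro a
    rw [Int.isCoprime_iff_gcd_eq_one, Int.gcd, Int.natAbs_natCast]
  rw [h2, h2]
  obtain ⟨c, hc⟩ := h1
  have h3 : ev F ((m + W : ℕ) : ℤ) = ev F (m : ℤ) + (W : ℤ) * c := by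
    push_cast
    linarith
  rw [h3]
  constructor
  · intro h
    exact (IsCoprime.add_mul_left_left_iff).1 h
  · intro h
    exact (IsCoprime.add_mul_left_left_iff).2 h

/-- the number of allowed elements of `Ico a b` -/
theorem cnt_add {p : ℕ → Prop} [DecidablePred p] {a b c : ℕ} (h1 : a ≤ b) (h2 : b ≤ c) :
    #((Ico a c).filter p) = #((Ico a b).filter p) + #((Ico b c).filter p) := by
  rw [Finset.card_filter, Finset.card_filter, Finset.card_filter,
    Finset.sum_Ico_consecutive _ h1 h2]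

theorem cnt_per {p : ℕ → Prop} [DecidablePred p] {W : ℕ} (hp : Function.Periodic p W) (a t : ℕ) :
    #((Ico a (a + W * t)).filter p) = t * #((range W).filter p) := by
  induction t with
  | zero => simp
  | succ t ih =>
    rw [cnt_add (b := a + W * t) (by omega) (by rw [mul_add]; omega), ih,
      show a + W * (t + 1) = a + W * t + W by ring, Nat.filter_Ico_card_eq_of_periodic _ _ _ hp,
      Nat.count_eq_card_filter_range]
    ring

theorem hAlw : StAlw := by
  classical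
  intro d W F y z hW hy hyz
  have hz : 0 ≤ z := hy.trans hyz
  set p : ℕ → Prop := fun m => Nat.Coprime (ev F (m : ℤ)).natAbs W with hp
  have hper : Function.Periodic p W := by
    intro m
    exact propext (cop_shift F W m)
  have hfl : ⌊y⌋₊ ≤ ⌊z⌋₊ := Nat.floor_le_floor hyz
  have h1 : al W F y z = (Ico (⌊y⌋₊ + 1) (⌊z⌋₊ + 1)).filter p := by
    ext m
    rw [al, mem_filter, mem_filter, mem_range, mem_Ico]
    have h : y < m ↔ ⌊y⌋₊ + 1 ≤ m := by rw [Nat.succ_le_iff, Nat.floor_lt hy]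
    constructor
    · rintro ⟨h2, h3, h4⟩
      exact ⟨⟨h.1 h3, h2⟩, h4⟩
    · rintro ⟨⟨h2, h3⟩, h4⟩
      exact ⟨h3, h.2 h2, h4⟩
  have h2 : Rc W F = #((range W).filter p) := rfl
  set R := Rc W F with hR
  set L := ⌊z⌋₊ - ⌊y⌋₊ with hL
  set t := L / W with ht
  have hLt : W * t + L % W = L := Nat.div_add_mod L W
  have hr : L % W < W := Nat.mod_lt _ hW
  set r := L % W with hrdef
  have hsplit : ⌊z⌋₊ + 1 = ⌊y⌋₊ + 1 + W * t + r := by omega
  have hRW : R ≤ W := by
    rw [h2]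
    exact (card_filter_le _ _).trans (by rw [card_range])
  have hcard : #(al W F y z) = t * R + #((Ico (⌊y⌋₊ + 1 + W * t) (⌊z⌋₊ + 1)).filter p) := by
    rw [h1, cnt_add (b := ⌊y⌋₊ + 1 + W * t) (by omega) (by omega), cnt_per hper, ← h2]
  have hrest : #((Ico (⌊y⌋₊ + 1 + W * t) (⌊z⌋₊ + 1)).filter p) ≤ W := by
    refine (card_filter_le _ _).trans ?_
    rw [Nat.card_Ico]
    omega
  set e := #((Ico (⌊y⌋₊ + 1 + W * t) (⌊z⌋₊ + 1)).filter p) with he
  rw [hcard]
  push_cast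
  have hW0 : (0 : ℝ) < W := by exact_mod_cast hW
  have hW1 : (1 : ℝ) ≤ W := by exact_mod_cast hW
  -- the real numbers
  have hyf := Nat.floor_le hy
  have hyf2 := Nat.lt_floor_add_one y
  have hzf := Nat.floor_le hz
  have hzf2 := Nat.lt_floor_add_one z
  have hz3 : (⌊z⌋₊ : ℝ) = ⌊y⌋₊ + W * t + r := by
    have : ⌊z⌋₊ = ⌊y⌋₊ + W * t + r := by omega
    exact_mod_cast this
  have heW : (e : ℝ) ≤ W := by exact_mod_cast hrest
  have he0 : (0 : ℝ) ≤ e := Nat.cast_nonneg _
  have hRW' : (R : ℝ) ≤ W := by exact_mod_cast hRW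
  have hR0 : (0 : ℝ) ≤ R := Nat.cast_nonneg _
  have hr' : (r : ℝ) ≤ W := by exact_mod_cast hr.le
  have hr0 : (0 : ℝ) ≤ r := Nat.cast_nonneg _
  set θ := z - y - (W * t + r) with hθ
  have hθ1 : -1 ≤ θ := by rw [hθ]; linarith
  have hθ2 : θ ≤ 1 := by rw [hθ]; linarith
  have hq0 : 0 ≤ (R : ℝ) / W := by positivity
  have hq1 : (R : ℝ) / W ≤ 1 := by rw [div_le_one hW0]; exact hRW'
  have hmain : (z - y) * R / W = t * R + (r + θ) * (R / W) := by
    have h3 : z - y = W * t + r + θ := by rw [hθ]; ring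
    rw [h3]
    field_simp
    ring
  rw [hmain]
  have hb1 : (r + θ) * (R / W) ≤ W + 1 := by
    have h3 : (r + θ) * (R / W) ≤ (W + 1) * (R / W) := mul_le_mul_of_nonneg_right (by linarith) hq0
    have h4 : ((W : ℝ) + 1) * (R / W) ≤ (W + 1) * 1 := mul_le_mul_of_nonneg_left hq1 (by linarith)
    linarith
  have hb2 : -1 ≤ (r + θ) * (R / W) := by
    have h3 : -1 * ((R : ℝ) / W) ≤ (r + θ) * (R / W) := mul_le_mul_of_nonneg_right (by linarith) hq0
    linarith
  rw [abs_le]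
  constructor
  · linarith
  · linarith

end Pool.Agent.Helper45.PL
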