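import Pool.Agent.Helper93.PL.St

set_option autoImplicit false

namespace Pool.Agent.Helper45.PL

open Pool.Agent.Helper61.PV

theorem hNuk : Pool.Agent.Helper93.PL.StNuk := by
  intro k W C κ δ hW hC hκ hκ1 hδ hδ1
  have hWr : (1:ℝ) ≤ W := by exact_mod_cast hW
  have hW0 : (0:ℝ) < W := by linarith
  set a₁ : ℝ := 2 * W / (δ * κ) with ha₁
  set a₂ : ℝ := 64 / δ with ha₂
  set a₃ : ℝ := 4 / κ with ha₃
  have ha₁0 : 0 < a₁ := by positivity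
  have ha₂0 : 0 < a₂ := by positivity
  have ha₃0 : 0 < a₃ := by positivity
  refine ⟨⌈Real.exp (2 + C + a₁ + a₂ + a₃ + W)⌉₊, ?_⟩
  intro H hH d hd hdH
  have hHe : Real.exp (2 + C + a₁ + a₂ + a₃ + W) ≤ H :=
    le_trans (Nat.le_ceil _) (by exact_mod_cast hH)
  have hH0 : (0:ℝ) < H := lt_of_lt_of_le (Real.exp_pos _) hHe
  have hLL : 2 + C + a₁ + a₂ + a₃ + W ≤ Real.log H := (Real.le_log_iff_exp_le hH0).2 hHe
  have hdr : (1:ℝ) ≤ d := by exact_mod_cast hd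
  have hSz : Sz H d = Real.log H + d * Real.log (Real.log H + d) := by
    unfold Sz
    rw [add_comm (d:ℝ) (Real.log H)]
  obtain ⟨L, hL⟩ : ∃ L : ℝ, L = Real.log H := ⟨_, rfl⟩
  rw [hSz]
  rw [← hL] at hLL hdH ⊢
  obtain ⟨Λ, hΛ⟩ : ∃ Λ : ℝ, Λ = L + d := ⟨_, rfl⟩
  rw [← hΛ] at hdH ⊢
  have hΛL : 3 + C + a₁ + a₂ + a₃ + W ≤ Λ := by rw [hΛ]; linarith
  have hΛ1 : 1 ≤ Λ := by linarith
  have hΛ2 : 2 ≤ Λ := by linarith
  have hΛ0 : 0 < Λ := by linarith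
  have hd1 : (d:ℝ) + 1 ≤ Λ := by rw [hΛ]; linarith
  have hLΛ : L ≤ Λ := by rw [hΛ]; linarith
  have hL0 : 0 ≤ L := by linarith
  have hlog0 : 0 ≤ Real.log Λ := Real.log_nonneg hΛ1
  have hlog : Real.log Λ ≤ Λ - 1 := Real.log_le_sub_one_of_pos hΛ0
  obtain ⟨S, hS⟩ : ∃ S : ℝ, S = L + d * Real.log Λ := ⟨_, rfl⟩
  rw [← hS]
  have hS0 : 0 ≤ S := by
    rw [hS]
    have : 0 ≤ (d:ℝ) * Real.log Λ := mul_nonneg (by linarith) hlog0
    linarith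
  have hS2 : S ≤ Λ ^ 2 := by
    have h1 : (d:ℝ) * Real.log Λ ≤ d * (Λ - 1) := mul_le_mul_of_nonneg_left hlog (by linarith)
    have h2 : L * 1 ≤ L * Λ := mul_le_mul_of_nonneg_left hΛ1 hL0
    have h3 : Λ ^ 2 = L * Λ + d * Λ := by
      rw [hΛ]; ring
    rw [hS, h3]
    have h4 : (d:ℝ) * (Λ - 1) = d * Λ - d := by ring
    linarith
  -- the powers
  have hpow : ∀ a b : ℕ, a ≤ b → Λ ^ a ≤ Λ ^ b := fun a b h => pow_le_pow_right₀ hΛ1 h
  obtain ⟨M, hM⟩ : ∃ M : ℕ, M = max 1 ⌊C * S⌋₊ := ⟨_, rfl⟩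
  have hM1 : 1 ≤ M := by rw [hM]; exact le_max_left _ _
  have hM1r : (1:ℝ) ≤ M := by exact_mod_cast hM1
  have hCS : C * S < M + 1 := by
    have h1 := Nat.lt_floor_add_one (C * S)
    have h2 : ⌊C * S⌋₊ ≤ M := by rw [hM]; exact le_max_right _ _
    have h3 : ((⌊C * S⌋₊ : ℕ) : ℝ) ≤ M := by exact_mod_cast h2
    linarith
  have hM3 : (M:ℝ) ≤ Λ ^ 3 := by
    rw [hM, Nat.cast_max]
    apply max_le
    · push_cast
      exact one_le_pow₀ hΛ1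
    · refine (Nat.floor_le (mul_nonneg hC.le hS0)).trans ?_
      have h1 : C * S ≤ Λ * Λ ^ 2 := mul_le_mul (by linarith) hS2 hS0 hΛ0.le
      calc C * S ≤ Λ * Λ ^ 2 := h1
        _ = Λ ^ 3 := by ring
  have hM4 : (M:ℝ) + 2 ≤ Λ ^ 4 := by
    have h1 : (2:ℝ) ≤ Λ ^ 3 := hΛ2.trans (by simpa using hpow 1 3 (by norm_num))
    have h2 : 2 * Λ ^ 3 ≤ Λ * Λ ^ 3 := mul_le_mul_of_nonneg_right hΛ2 (by positivity)
    calc (M:ℝ) + 2 ≤ 2 * Λ ^ 3 := by linarith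
      _ ≤ Λ * Λ ^ 3 := h2
      _ = Λ ^ 4 := by ring
  have hMk : (M:ℝ) ^ k ≤ Λ ^ (3 * k) := by
    rw [pow_mul]
    exact pow_le_pow_left₀ (by linarith) hM3 k
  have hM2k : ((M:ℝ) + 2) ^ k ≤ Λ ^ (4 * k) := by
    rw [pow_mul]
    exact pow_le_pow_left₀ (by linarith) hM4 k
  obtain ⟨y, hy⟩ : ∃ y : ℝ, y = H / Λ ^ (10 * (k + 1)) := ⟨_, rfl⟩
  have hP0 : 0 < Λ ^ (10 * (k + 1)) := by positivity
  have hyP : y * Λ ^ (10 * (k + 1)) = H := by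
    rw [hy]
    exact div_mul_cancel₀ _ hP0.ne'
  have hy30 : Λ ^ (30 * (k + 1)) ≤ y := by
    rw [hy, le_div_iff₀ hP0, ← pow_add]
    refine le_trans (le_of_eq ?_) hdH
    congr 1
    ring
  have hy0 : 0 < y := lt_of_lt_of_le (by positivity) hy30
  have hy1 : 1 ≤ y := (one_le_pow₀ hΛ1).trans hy30
  obtain ⟨B, hB⟩ : ∃ B : ℕ, B = ⌊y⌋₊ := ⟨_, rfl⟩
  have hBy : (B:ℝ) ≤ y := by rw [hB]; exact Nat.floor_le hy0.le
  have hB1 : 1 ≤ B := by rw [hB]; exact Nat.le_floor (by simpa using hy1)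
  have hB1r : (1:ℝ) ≤ B := by exact_mod_cast hB1
  have hyB : y ≤ 2 * B := by
    have := Nat.lt_floor_add_one y
    rw [← hB] at this
    linarith
  have hBM : M ≤ B := by
    rw [hB]
    apply Nat.le_floor
    exact hM3.trans ((hpow 3 (30 * (k + 1)) (by lia)).trans hy30)
  have hB0 : (0:ℝ) ≤ B := by linarith
  refine ⟨B, M, hM1, hCS, hBM, ?_, ?_, ?_, ?_, ?_⟩
  · push_cast
    -- B * Λ ^ (10 k + 10) ≤ H
    have h1 : (B:ℝ) * Λ ^ (10 * (k + 1)) ≤ H := by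
      rw [← hyP]
      exact mul_le_mul_of_nonneg_right hBy hP0.le
    have h2 : 4 * (((M:ℝ) + 2) ^ k * B) * (d + 1) ≤ 4 * (Λ ^ (4 * k) * B) * Λ := by
      apply mul_le_mul _ hd1 (by positivity) (by positivity)
      apply mul_le_mul_of_nonneg_left _ (by norm_num)
      exact mul_le_mul_of_nonneg_right hM2k hB0
    refine h2.trans ?_
    have h3 : a₁ * δ * κ = 2 * W := by
      rw [ha₁]
      field_simp
    have h4 : 2 * W ≤ Λ * (δ * κ) := by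
      rw [← h3, mul_assoc]
      exact mul_le_mul_of_nonneg_right (by linarith) (by positivity)
    have h5 : Λ ^ (4 * k + 2) ≤ Λ ^ (10 * (k + 1)) := hpow _ _ (by lia)
    have h6 : 4 * (Λ ^ (4 * k) * B) * Λ * W ≤ 2 * δ * (κ * H) := by
      have e1 : 4 * (Λ ^ (4 * k) * B) * Λ * W = 2 * (Λ ^ (4 * k) * B * Λ) * (2 * W) := by ring
      have e2 : 2 * (Λ ^ (4 * k) * B * Λ) * (2 * W) ≤
          2 * (Λ ^ (4 * k) * B * Λ) * (Λ * (δ * κ)) :=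
        mul_le_mul_of_nonneg_left h4 (by positivity)
      have e3 : 2 * (Λ ^ (4 * k) * B * Λ) * (Λ * (δ * κ)) =
          2 * (δ * κ) * (B * Λ ^ (4 * k + 2)) := by
        rw [pow_add]; ring
      have e4 : (B:ℝ) * Λ ^ (4 * k + 2) ≤ H :=
        (mul_le_mul_of_nonneg_left h5 hB0).trans h1
      have e5 : 2 * (δ * κ) * (B * Λ ^ (4 * k + 2)) ≤ 2 * (δ * κ) * H :=
        mul_le_mul_of_nonneg_left e4 (by positivity)
      rw [e1]
      refine e2.trans ?_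
      rw [e3]
      refine e5.trans (le_of_eq ?_)
      ring
    have h7 : 2 * δ * (κ * H / W) = 2 * δ * (κ * H) / W := by ring
    rw [h7, le_div_iff₀ hW0]
    exact h6
  · have h1 : (H:ℝ) ≤ 2 * B * Λ ^ (10 * (k + 1)) := by
      rw [← hyP]
      exact mul_le_mul_of_nonneg_right hyB hP0.le
    have h2 : 32 * (H:ℝ) * (M:ℝ) ^ k ≤ 32 * (2 * B * Λ ^ (10 * (k + 1))) * Λ ^ (3 * k) := by
      apply mul_le_mul _ hMk (by positivity) (by positivity)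
      exact mul_le_mul_of_nonneg_left h1 (by norm_num)
    refine h2.trans ?_
    have h3 : a₂ * δ = 64 := by
      rw [ha₂]
      field_simp
    have h4 : 64 ≤ Λ * δ := by
      rw [← h3]
      exact mul_le_mul_of_nonneg_right (by linarith) hδ.le
    have h5 : Λ ^ (10 * (k + 1) + 3 * k + 1) ≤ Λ ^ (14 * (k + 1)) := hpow _ _ (by lia)
    calc 32 * (2 * B * Λ ^ (10 * (k + 1))) * Λ ^ (3 * k)
        = B * Λ ^ (10 * (k + 1)) * Λ ^ (3 * k) * 64 := by ring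
      _ ≤ B * Λ ^ (10 * (k + 1)) * Λ ^ (3 * k) * (Λ * δ) :=
          mul_le_mul_of_nonneg_left h4 (by positivity)
      _ = B * (δ * Λ ^ (10 * (k + 1) + 3 * k + 1)) := by
          rw [pow_add, pow_add]; ring
      _ ≤ B * (δ * Λ ^ (14 * (k + 1))) := by
          apply mul_le_mul_of_nonneg_left _ hB0
          exact mul_le_mul_of_nonneg_left h5 hδ.le
  · calc (W:ℝ) * (M:ℝ) ^ k ≤ Λ * Λ ^ (3 * k) := by
          apply mul_le_mul _ hMk (by positivity) hΛ0.le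
          linarith
      _ = Λ ^ (3 * k + 1) := by ring
      _ ≤ Λ ^ (4 * (k + 1)) := hpow _ _ (by lia)
  · have h1 : (W:ℝ) ≤ Λ ^ (10 * (k + 1)) := by
      have h2 : (W:ℝ) ≤ Λ ^ 1 := by
        rw [pow_one]; linarith
      exact h2.trans (hpow _ _ (by lia))
    calc (W:ℝ) * B ≤ Λ ^ (10 * (k + 1)) * y := mul_le_mul h1 hBy hB0 hP0.le
      _ = H := by rw [mul_comm]; exact hyP
  · have h1 : Λ ^ 4 ≤ H := (hpow 4 (40 * (k + 1)) (by lia)).trans hdH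
    have h3 : a₃ * κ = 4 := by
      rw [ha₃]
      field_simp
    have h4 : 4 < Λ * κ := by
      rw [← h3]
      exact mul_lt_mul_of_pos_right (by linarith) hκ
    have h5 : 4 * Λ ^ 3 < Λ * κ * Λ ^ 3 := mul_lt_mul_of_pos_right h4 (by positivity)
    have h6 : Λ * κ * Λ ^ 3 = κ * Λ ^ 4 := by ring
    have h7 : κ * Λ ^ 4 ≤ κ * H := mul_le_mul_of_nonneg_left h1 hκ.le
    rw [lt_div_iff₀ (by norm_num)]
    linarith

end Pool.Agent.Helper45.PL
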