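import Pool.Agent.Helper93.PL.St2

/-!
Module Pb of PL: Lipschitz property, monotonicity and lower bound of the law.
-/

set_option autoImplicit false

namespace Pool.Agent.Helper45.PL

open Finset
open Pool.Agent.Helper61.PV Pool.Agent.Helper93.PL

private theorem pb_pois0 (y : ℝ) : pois 0 y = Real.exp (-y) := by
  simp [pois]

private theorem pb_law (w j : ℕ) (x : ℝ) : LawW w j x = Ec w (fun n => pois j (x * eu n)) := rfl

private theorem pb_sub (w : ℕ) (G G' : (Pw w → ℕ) → ℝ) :
    Ec w (fun n => G n - G' n) = Ec w G - Ec w G' := by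
  unfold Ec
  rw [← sum_sub_distrib]
  exact sum_congr rfl fun n _ => mul_sub _ _ _

private theorem pb_mul (w : ℕ) (c : ℝ) (G : (Pw w → ℕ) → ℝ) :
    Ec w (fun n => c * G n) = c * Ec w G := by
  unfold Ec
  rw [mul_sum]
  exact sum_congr rfl fun n _ => by ring

theorem hPb (hPa : StPa) (hBmo : StBmo) (hSer : StSer) : Pool.Agent.Helper93.PL.StPb := by
  obtain ⟨-, hone, hle2, hmono, hpos⟩ := hPa
  have hE : ∀ w : ℕ, Ec w (fun n => eu n) ≤ 2 := by
    intro w
    have h1 : Ec w (fun n => eu n) ≤ Ec w (fun n => |eu n|) :=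
      hmono w _ _ fun n _ => le_abs_self _
    have h2 := hle2 w (fun n => |eu n|) (fun n => abs_nonneg _)
    have h3 : ∑ n ∈ Fintype.piFinset (fun p : Pw w => range (p.1 + 1)),
        (∏ p : Pw w, bw p.1 (n p)) * |eu n| = 1 := by
      rw [← hBmo.1 w]
      apply sum_congr rfl
      intro n hn
      congr 1
      apply abs_of_nonneg
      unfold eu
      apply prod_nonneg
      intro p _
      have hp : Nat.Prime p.1 := (mem_filter.1 p.2).2
      have hp2 : (2:ℝ) ≤ p.1 := by exact_mod_cast hp.two_le
      have hnp : n p ≤ p.1 := by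
        have := Fintype.mem_piFinset.1 hn p
        rw [mem_range] at this
        omega
      have hnp' : ((n p : ℕ) : ℝ) ≤ p.1 := by exact_mod_cast hnp
      apply div_nonneg
      · rw [sub_nonneg, div_le_one (by linarith)]
        exact hnp'
      · rw [sub_nonneg, div_le_one (by linarith)]
        linarith
    rw [h3] at h2
    linarith
  refine ⟨hE, ?_, ?_, ?_, ?_⟩
  · have key : ∀ (w j : ℕ) (x y : ℝ), 0 ≤ x → 0 ≤ y → LawW w j x - LawW w j y ≤ 2 * |x - y| := by
      intro w j x y hx hy
      rw [pb_law, pb_law, ← pb_sub]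
      have h1 : Ec w (fun n => pois j (x * eu n) - pois j (y * eu n)) ≤
          Ec w (fun n => |x - y| * eu n) := by
        apply hmono
        intro n hn
        have he := hpos w n hn
        have h2 := hSer.2.2 j (x * eu n) (y * eu n) (mul_nonneg hx he.le) (mul_nonneg hy he.le)
        rw [← sub_mul, abs_mul, abs_of_pos he] at h2
        exact (le_abs_self _).trans h2
      rw [pb_mul] at h1
      have h3 : |x - y| * Ec w (fun n => eu n) ≤ |x - y| * 2 :=
        mul_le_mul_of_nonneg_left (hE w) (abs_nonneg _)
      linarith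
    intro w j x y hx hy
    rw [abs_le]
    have h1 := key w j x y hx hy
    have h2 := key w j y x hy hx
    rw [abs_sub_comm y x] at h2
    constructor <;> linarith
  · intro w
    rw [pb_law, ← hone w]
    congr 1
    funext n
    rw [zero_mul, pb_pois0, neg_zero, Real.exp_zero]
  · intro w x y hx hxy
    rw [pb_law, pb_law]
    apply hmono
    intro n hn
    have he := hpos w n hn
    rw [pb_pois0, pb_pois0]
    apply Real.exp_le_exp.2
    have := mul_le_mul_of_nonneg_right hxy he.le
    linarith
  · intro w x hx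
    rw [pb_law]
    have h1 : Ec w (fun n => Real.exp (-(4 * x)) * (1 - (1 / 4) * eu n)) ≤
        Ec w (fun n => pois 0 (x * eu n)) := by
      apply hmono
      intro n hn
      have he := hpos w n hn
      rw [pb_pois0]
      by_cases h4 : eu n ≤ 4
      · have e1 : Real.exp (-(4 * x)) ≤ Real.exp (-(x * eu n)) := by
          apply Real.exp_le_exp.2
          have := mul_le_mul_of_nonneg_left h4 hx
          linarith
        have e2 : Real.exp (-(4 * x)) * (1 - (1 / 4) * eu n) ≤ Real.exp (-(4 * x)) * 1 :=
          mul_le_mul_of_nonneg_left (by linarith) (Real.exp_pos _).le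
        linarith
      · have e1 : Real.exp (-(4 * x)) * (1 - (1 / 4) * eu n) ≤ Real.exp (-(4 * x)) * 0 :=
          mul_le_mul_of_nonneg_left (by linarith) (Real.exp_pos _).le
        have e2 := Real.exp_pos (-(x * eu n))
        linarith
    rw [pb_mul, pb_sub w (fun _ => 1) (fun n => (1 / 4) * eu n), hone, pb_mul] at h1
    have h2 := hE w
    have h3 : Real.exp (-(4 * x)) * (1 / 2) ≤
        Real.exp (-(4 * x)) * (1 - (1 / 4) * Ec w (fun n => eu n)) :=
      mul_le_mul_of_nonneg_left (by linarith) (Real.exp_pos _).le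
    linarith

end Pool.Agent.Helper45.PL
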