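import Pool.Agent.Helper93.PL.St

/-!
Module Ser of PL: Bonferroni inequalities and the Lipschitz property for the Poisson law.
-/

set_option autoImplicit false

namespace Pool.Agent.Helper45.PL

open Finset
open Pool.Agent.Helper61.PV Pool.Agent.Helper93.PL

/-- the sum of the first `n` terms of the series of `e^(-y)` -/
noncomputable def SS (n : ℕ) (y : ℝ) : ℝ := ∑ i ∈ range n, (-y) ^ i / (i.factorial : ℝ)

theorem SS_succ (n : ℕ) (y : ℝ) : SS (n + 1) y = SS n y + (-y) ^ n / (n.factorial : ℝ) :=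
  sum_range_succ _ _

theorem SS_deriv (n : ℕ) (y : ℝ) : HasDerivAt (SS (n + 1)) (-(SS n y)) y := by
  induction n with
  | zero =>
    have h1 : SS (0 + 1) = fun _ : ℝ => (1 : ℝ) := by
      funext x
      simp [SS]
    have h2 : -(SS 0 y) = 0 := by simp [SS]
    rw [h1, h2]
    exact hasDerivAt_const y 1
  | succ n ih =>
    have h1 : SS (n + 1 + 1) = fun x : ℝ => SS (n + 1) x + (-x) ^ (n + 1) / ((n + 1).factorial : ℝ) := by
      funext x
      exact SS_succ (n + 1) x
    rw [h1, SS_succ]
    have h2 : HasDerivAt (fun x : ℝ => (-x) ^ (n + 1) / ((n + 1).factorial : ℝ))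
        ((((n + 1 : ℕ) : ℝ) * (-y) ^ n * (-1)) / ((n + 1).factorial : ℝ)) y := by
      have h3 := ((hasDerivAt_neg y).pow (n + 1)).div_const ((n + 1).factorial : ℝ)
      simpa using h3
    have h4 : -(SS n y + (-y) ^ n / (n.factorial : ℝ)) =
        -(SS n y) + (((n + 1 : ℕ) : ℝ) * (-y) ^ n * (-1)) / ((n + 1).factorial : ℝ) := by
      have hf : (n.factorial : ℝ) ≠ 0 := by exact_mod_cast n.factorial_ne_zero
      have hn : ((n : ℝ) + 1) ≠ 0 := by positivity
      rw [Nat.factorial_succ]
      push_cast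
      field_simp
      ring
    rw [h4]
    exact ih.add h2

theorem pow_deriv (n : ℕ) (y : ℝ) : HasDerivAt (fun x : ℝ => x ^ (n + 1) / ((n + 1).factorial : ℝ))
    (y ^ n / (n.factorial : ℝ)) y := by
  have h3 := (hasDerivAt_pow (n + 1) y).div_const ((n + 1).factorial : ℝ)
  have h4 : ((n + 1 : ℕ) : ℝ) * y ^ (n + 1 - 1) / ((n + 1).factorial : ℝ) = y ^ n / (n.factorial : ℝ) := by
    have hf : (n.factorial : ℝ) ≠ 0 := by exact_mod_cast n.factorial_ne_zero
    have hn : ((n : ℝ) + 1) ≠ 0 := by positivity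
    rw [Nat.factorial_succ, Nat.add_sub_cancel]
    push_cast
    field_simp
  rwa [h4] at h3

theorem exp_neg_deriv (y : ℝ) : HasDerivAt (fun x : ℝ => Real.exp (-x)) (-Real.exp (-y)) y := by
  have h := (hasDerivAt_neg y).exp
  simpa using h

theorem TT_bound (n : ℕ) : ∀ y : ℝ, 0 ≤ y →
    0 ≤ (-1) ^ n * (Real.exp (-y) - SS n y) ∧
      (-1) ^ n * (Real.exp (-y) - SS n y) ≤ y ^ n / (n.factorial : ℝ) := by
  induction n with
  | zero =>
    intro y hy
    have h1 : SS 0 y = 0 := by simp [SS]
    rw [h1]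
    simp only [pow_zero, one_mul, sub_zero, Nat.factorial_zero, Nat.cast_one, div_one]
    exact ⟨(Real.exp_pos _).le, Real.exp_le_one_iff.2 (by linarith)⟩
  | succ n ih =>
    have hT : ∀ y : ℝ, HasDerivAt (fun x : ℝ => (-1) ^ (n + 1) * (Real.exp (-x) - SS (n + 1) x))
        ((-1) ^ n * (Real.exp (-y) - SS n y)) y := by
      intro y
      have h1 := ((exp_neg_deriv y).sub (SS_deriv n y)).const_mul ((-1 : ℝ) ^ (n + 1))
      have h2 : (-1 : ℝ) ^ (n + 1) * (-Real.exp (-y) - -(SS n y)) =
          (-1) ^ n * (Real.exp (-y) - SS n y) := by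
        rw [pow_succ]; ring
      rw [h2] at h1
      exact h1
    have h0 : (-1 : ℝ) ^ (n + 1) * (Real.exp (-0) - SS (n + 1) 0) = 0 := by
      have : SS (n + 1) 0 = 1 := by
        unfold SS
        rw [sum_range_succ', sum_eq_zero]
        · simp
        · intro i _
          rw [neg_zero, zero_pow (Nat.succ_ne_zero i), zero_div]
      rw [this]
      simp
    have hU : ∀ y : ℝ, HasDerivAt (fun x : ℝ => x ^ (n + 1) / ((n + 1).factorial : ℝ) -
        (-1) ^ (n + 1) * (Real.exp (-x) - SS (n + 1) x))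
        (y ^ n / (n.factorial : ℝ) - (-1) ^ n * (Real.exp (-y) - SS n y)) y := fun y =>
      (pow_deriv n y).sub (hT y)
    have hm1 : MonotoneOn (fun x : ℝ => (-1) ^ (n + 1) * (Real.exp (-x) - SS (n + 1) x)) (Set.Ici 0) := by
      apply monotoneOn_of_deriv_nonneg (convex_Ici 0)
      · exact fun y _ => (hT y).continuousAt.continuousWithinAt
      · exact fun y _ => (hT y).differentiableAt.differentiableWithinAt
      · intro y hy
        rw [interior_Ici] at hy
        rw [(hT y).deriv]
        exact (ih y (le_of_lt hy)).1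
    have hm2 : MonotoneOn (fun x : ℝ => x ^ (n + 1) / ((n + 1).factorial : ℝ) -
        (-1) ^ (n + 1) * (Real.exp (-x) - SS (n + 1) x)) (Set.Ici 0) := by
      apply monotoneOn_of_deriv_nonneg (convex_Ici 0)
      · exact fun y _ => (hU y).continuousAt.continuousWithinAt
      · exact fun y _ => (hU y).differentiableAt.differentiableWithinAt
      · intro y hy
        rw [interior_Ici] at hy
        rw [(hU y).deriv]
        linarith [(ih y (le_of_lt hy)).2]
    intro y hy
    have h1 := hm1 (Set.mem_Ici.2 le_rfl) (Set.mem_Ici.2 hy) hy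
    have h2 := hm2 (Set.mem_Ici.2 le_rfl) (Set.mem_Ici.2 hy) hy
    simp only at h1 h2
    rw [h0] at h1 h2
    rw [zero_pow (Nat.succ_ne_zero n), zero_div, sub_zero] at h2
    exact ⟨h1, by linarith⟩

theorem exp_bd (n : ℕ) (y : ℝ) (hy : 0 ≤ y) :
    |Real.exp (-y) - SS n y| ≤ y ^ n / (n.factorial : ℝ) := by
  obtain ⟨h1, h2⟩ := TT_bound n y hy
  have h3 : |(-1 : ℝ) ^ n * (Real.exp (-y) - SS n y)| = |Real.exp (-y) - SS n y| := by
    rw [abs_mul, abs_pow, abs_neg, abs_one, one_pow, one_mul]
  rw [← h3, abs_of_nonneg h1]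
  exact h2

theorem choose_div (j i : ℕ) : ((j + i).choose j : ℝ) / ((j + i).factorial : ℝ) =
    1 / ((j.factorial : ℝ) * (i.factorial : ℝ)) := by
  have h := Nat.add_choose_mul_factorial_mul_factorial j i
  rw [← Nat.choose_symm_add] at h
  have h1 : ((j + i).choose j : ℝ) * (j.factorial : ℝ) * (i.factorial : ℝ) = ((j + i).factorial : ℝ) := by
    exact_mod_cast h
  have hj : (j.factorial : ℝ) ≠ 0 := by exact_mod_cast j.factorial_ne_zero
  have hi : (i.factorial : ℝ) ≠ 0 := by exact_mod_cast i.factorial_ne_zero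
  have hji : ((j + i).factorial : ℝ) ≠ 0 := by exact_mod_cast (j + i).factorial_ne_zero
  rw [div_eq_div_iff hji (mul_ne_zero hj hi)]
  linear_combination h1

theorem pois_bd (j : ℕ) (y : ℝ) (hy : 0 ≤ y) : 0 ≤ pois j y ∧ pois j y ≤ 1 := by
  unfold pois
  constructor
  · positivity
  · have h1 := Real.pow_div_factorial_le_exp y hy j
    have h2 : Real.exp (-y) * y ^ j / (j.factorial : ℝ) = Real.exp (-y) * (y ^ j / (j.factorial : ℝ)) := by
      ring
    rw [h2]
    have h3 := mul_le_mul_of_nonneg_left h1 (Real.exp_pos (-y)).le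
    rwa [← Real.exp_add, neg_add_cancel, Real.exp_zero] at h3

theorem pois_deriv (j : ℕ) (y : ℝ) (hy : 0 ≤ y) :
    ∃ D : ℝ, HasDerivAt (pois j) D y ∧ |D| ≤ 1 := by
  cases j with
  | zero =>
    refine ⟨-Real.exp (-y), ?_, ?_⟩
    · have h : pois 0 = fun x : ℝ => Real.exp (-x) := by
        funext x
        simp [pois]
      rw [h]
      exact exp_neg_deriv y
    · rw [abs_neg, abs_of_pos (Real.exp_pos _)]
      exact Real.exp_le_one_iff.2 (by linarith)
  | succ j =>
    refine ⟨pois j y - pois (j + 1) y, ?_, ?_⟩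
    · have h : pois (j + 1) = fun x : ℝ => Real.exp (-x) * (x ^ (j + 1) / ((j + 1).factorial : ℝ)) := by
        funext x
        simp only [pois]
        ring
      have h2 := (exp_neg_deriv y).mul (pow_deriv j y)
      have h3 : pois j y - pois (j + 1) y =
          -Real.exp (-y) * (y ^ (j + 1) / ((j + 1).factorial : ℝ)) +
            Real.exp (-y) * (y ^ j / (j.factorial : ℝ)) := by
        simp only [pois]
        ring
      rw [h3, h]
      exact h2
    · have h1 := pois_bd j y hy
      have h2 := pois_bd (j + 1) y hy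
      rw [abs_le]
      constructor <;> linarith [h1.1, h1.2, h2.1, h2.2]

theorem hSer : StSer := by
  refine ⟨?_, pois_bd, ?_⟩
  · intro j r y hy
    have h1 : ∑ i ∈ range (r + 1), (-1 : ℝ) ^ i * (j + i).choose j * (y ^ (j + i) / (j + i).factorial) =
        y ^ j / (j.factorial : ℝ) * SS (r + 1) y := by
      unfold SS
      rw [mul_sum]
      refine sum_congr rfl fun i _ => ?_
      have h2 := choose_div j i
      rw [show (-1 : ℝ) ^ i * (j + i).choose j * (y ^ (j + i) / (j + i).factorial) =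
        (-1 : ℝ) ^ i * y ^ (j + i) * (((j + i).choose j : ℝ) / ((j + i).factorial : ℝ)) by ring, h2,
        neg_pow y, pow_add]
      have hj : (j.factorial : ℝ) ≠ 0 := by exact_mod_cast j.factorial_ne_zero
      have hi : (i.factorial : ℝ) ≠ 0 := by exact_mod_cast i.factorial_ne_zero
      field_simp
    have h2 : pois j y = y ^ j / (j.factorial : ℝ) * Real.exp (-y) := by
      simp only [pois]
      ring
    have h3 : ((j + r + 1).choose j : ℝ) * (y ^ (j + r + 1) / (j + r + 1).factorial) =
        y ^ j / (j.factorial : ℝ) * (y ^ (r + 1) / ((r + 1).factorial : ℝ)) := by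
      have h4 := choose_div j (r + 1)
      rw [← add_assoc] at h4
      rw [show ((j + r + 1).choose j : ℝ) * (y ^ (j + r + 1) / (j + r + 1).factorial) =
        y ^ (j + r + 1) * (((j + r + 1).choose j : ℝ) / ((j + r + 1).factorial : ℝ)) by ring, h4,
        add_assoc j r 1, pow_add]
      have hj : (j.factorial : ℝ) ≠ 0 := by exact_mod_cast j.factorial_ne_zero
      have hi : ((r + 1).factorial : ℝ) ≠ 0 := by exact_mod_cast (r + 1).factorial_ne_zero
      field_simp
    rw [h1, h2, h3, ← mul_sub, abs_mul, abs_of_nonneg (by positivity)]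
    exact mul_le_mul_of_nonneg_left (exp_bd (r + 1) y hy) (by positivity)
  · intro j y z hy hz
    have hD : ∀ x : ℝ, ∃ D : ℝ, 0 ≤ x → HasDerivAt (pois j) D x ∧ |D| ≤ 1 := by
      intro x
      by_cases hx : 0 ≤ x
      · obtain ⟨D, hD⟩ := pois_deriv j x hx
        exact ⟨D, fun _ => hD⟩
      · exact ⟨0, fun h => absurd h hx⟩
    choose D hD using hD
    have h := (convex_Ici (0 : ℝ)).norm_image_sub_le_of_norm_hasDerivWithin_le (f := pois j) (f' := D)
      (C := 1) (fun x hx => (hD x hx).1.hasDerivWithinAt) (fun x hx => (hD x hx).2)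
      (Set.mem_Ici.2 hz) (Set.mem_Ici.2 hy)
    rwa [one_mul, Real.norm_eq_abs, Real.norm_eq_abs] at h

end Pool.Agent.Helper45.PL
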